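import Pool.Agent.W670.TL.Defs

set_option autoImplicit false

namespace Pool.Agent.W281.TL

open NumberField Pool.Agent.W670.TL

theorem one_le_D (K : Type) [Field K] [NumberField K] : 1 ≤ D K := by
  unfold D
  have h : (1 : ℤ) ≤ |discr K| := Int.one_le_abs (NumberField.discr_ne_zero K)
  have h' : ((1 : ℤ) : ℝ) ≤ ((|discr K| : ℤ) : ℝ) := by exact_mod_cast h
  simpa using h'

theorem fin (h1 : S_BIG) (h2 : S_MOD) (h3 : S_HER) : S_FIN := by
  intro n q ℓ Δ θ hn hq hql hΔ hθ hθ1 hS ε hε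
  obtain ⟨D₀, hD₀⟩ := h1 n q ℓ Δ θ hn hq hql hΔ hθ hθ1 hS ε hε
  classical
  set f : IntermediateField ℚ (AlgebraicClosure ℚ) → ℕ :=
    fun M => if h : NumberField M then @tors M _ h ℓ else 0 with hf
  obtain ⟨B, hB⟩ := ((h3 D₀).image f).bddAbove
  have hexp : 0 ≤ (q : ℝ) * Δ / (1 - n * (q - 1) * θ) + ε := by
    have : 0 < 1 - (n : ℝ) * (q - 1) * θ := by linarith
    positivity
  refine ⟨max 1 (B : ℝ), ?_⟩
  intro K _ _ hK
  obtain ⟨K', nf, e1, e2, e3⟩ := h2 K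
  rw [← e3 ℓ, ← e2]
  have hD1 : 1 ≤ D K' := one_le_D K'
  have hpow : 1 ≤ D K' ^ ((q : ℝ) * Δ / (1 - n * (q - 1) * θ) + ε) :=
    Real.one_le_rpow hD1 hexp
  by_cases hD : D₀ ≤ D K'
  · refine (hD₀ K' nf (e1.trans hK) hD).trans ?_
    refine le_mul_of_one_le_left (by linarith) (le_max_left _ _)
  · have hmem : f K' ∈ f '' {M : IntermediateField ℚ (AlgebraicClosure ℚ) |
        ∃ _ : NumberField M, D M ≤ D₀} := ⟨K', ⟨nf, (not_le.1 hD).le⟩, rfl⟩
    have hle : f K' ≤ B := hB hmem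
    have hfe : f K' = tors K' ℓ := by
      simp only [hf]
      rw [dif_pos nf]
    rw [hfe] at hle
    have hle' : (tors K' ℓ : ℝ) ≤ B := by exact_mod_cast hle
    calc (tors K' ℓ : ℝ) ≤ B := hle'
      _ ≤ max 1 (B : ℝ) := le_max_right _ _
      _ ≤ max 1 (B : ℝ) * D K' ^ ((q : ℝ) * Δ / (1 - n * (q - 1) * θ) + ε) :=
        le_mul_of_one_le_right (by positivity) hpow

end Pool.Agent.W281.TL
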